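import Mathlib

set_option autoImplicit false

open Set Filter Topology

namespace Pool.Agent.Results.MP_3eafcc_gt.CompletelyRegularCase

/-- `U` is a cozero set of `X`: the set of points at which some continuous real function on `X`
does not vanish. -/
def IsCozero {X : Type*} [TopologicalSpace X] (U : Set X) : Prop :=
  ∃ g : X → ℝ, Continuous g ∧ U = {x | g x ≠ 0}

/-- The ring `T''(X)`: all functions `f : X → ℝ` (pointwise operations) for which there is a dense
cozero set `U` of `X` with `f` continuous on `U`. -/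
def T2 (X : Type*) [TopologicalSpace X] : Subring (X → ℝ) where
  carrier := {f | ∃ U : Set X, IsCozero U ∧ Dense U ∧ ContinuousOn f U}
  mul_mem' := by
    rintro f g ⟨U, ⟨u, hu, rfl⟩, hUd, hf⟩ ⟨V, ⟨v, hv, rfl⟩, hVd, hg⟩
    refine ⟨{x | u x ≠ 0} ∩ {x | v x ≠ 0}, ⟨fun x => u x * v x, hu.mul hv, ?_⟩, ?_, ?_⟩
    · ext x; simp
    · exact hUd.inter_of_isOpen_left hVd (isOpen_ne_fun hu continuous_const)
    · exact (hf.mono inter_subset_left).mul (hg.mono inter_subset_right)
  one_mem' := ⟨univ, ⟨fun _ => 1, continuous_const, by simp⟩, dense_univ,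
    continuous_const.continuousOn⟩
  add_mem' := by
    rintro f g ⟨U, ⟨u, hu, rfl⟩, hUd, hf⟩ ⟨V, ⟨v, hv, rfl⟩, hVd, hg⟩
    refine ⟨{x | u x ≠ 0} ∩ {x | v x ≠ 0}, ⟨fun x => u x * v x, hu.mul hv, ?_⟩, ?_, ?_⟩
    · ext x; simp
    · exact hUd.inter_of_isOpen_left hVd (isOpen_ne_fun hu continuous_const)
    · exact (hf.mono inter_subset_left).add (hg.mono inter_subset_right)
  zero_mem' := ⟨univ, ⟨fun _ => 1, continuous_const, by simp⟩, dense_univ,
    continuous_const.continuousOn⟩
  neg_mem' := by
    rintro f ⟨U, hU, hUd, hf⟩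
    exact ⟨U, hU, hUd, hf.neg⟩

/-- A commutative ring is almost regular if each of its elements is a unit or a zero divisor. -/
def AlmostRegular (R : Type*) [CommRing R] : Prop :=
  ∀ a : R, IsUnit a ∨ ∃ b : R, b ≠ 0 ∧ a * b = 0

theorem isCozero_inter {X : Type*} [TopologicalSpace X] {a u : X → ℝ} (hu : Continuous u)
    (ha : ContinuousOn a {x | u x ≠ 0}) : IsCozero {x | a x ≠ 0 ∧ u x ≠ 0} := by
  refine ⟨fun x => min |a x| |u x|, ?_, ?_⟩
  · rw [continuous_iff_continuousAt]
    intro x
    by_cases hx : u x = 0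
    · have h0 : min |a x| |u x| = 0 := by simp [hx]
      have h1 : Tendsto (fun y => |u y|) (𝓝 x) (𝓝 0) := by
        have := (hu.abs).tendsto x
        simpa [hx] using this
      change Tendsto (fun x => min |a x| |u x|) (𝓝 x) (𝓝 (min |a x| |u x|))
      rw [h0]
      refine tendsto_of_tendsto_of_tendsto_of_le_of_le tendsto_const_nhds h1 (fun y => ?_)
        (fun y => min_le_right _ _)
      exact le_min (abs_nonneg _) (abs_nonneg _)
    · have hmem : {x | u x ≠ 0} ∈ 𝓝 x := (isOpen_ne_fun hu continuous_const).mem_nhds hx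
      exact ((ha.continuousAt hmem).abs).min (hu.abs.continuousAt)
  · ext x
    simp only [mem_ofPred_eq, ne_eq]
    constructor
    · rintro ⟨h1, h2⟩ h
      rcases min_choice |a x| |u x| with h3 | h3 <;> rw [h3] at h
      · exact h1 (abs_eq_zero.1 h)
      · exact h2 (abs_eq_zero.1 h)
    · intro h
      constructor
      · intro h1; apply h; simp [h1]
      · intro h1; apply h; simp [h1]

/-- For every completely regular space `X` the ring `T''(X)` is almost regular. -/
theorem result (X : Type*) [TopologicalSpace X] [CompletelyRegularSpace X] :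
    AlmostRegular (T2 X) := by
  classical
  rintro ⟨a, U, ⟨u, hu, rfl⟩, hUd, ha⟩
  by_cases hz : ∀ x, a x ≠ 0
  · left
    have hinv : (fun x => (a x)⁻¹) ∈ T2 X :=
      ⟨{x | u x ≠ 0}, ⟨u, hu, rfl⟩, hUd, ha.inv₀ fun x _ => hz x⟩
    refine IsUnit.of_mul_eq_one ⟨_, hinv⟩ ?_
    apply Subtype.ext
    funext x
    exact mul_inv_cancel₀ (hz x)
  · right
    push Not at hz
    obtain ⟨x₀, hx₀⟩ := hz
    by_cases hV : Dense {x | a x ≠ 0 ∧ u x ≠ 0}
    · -- the characteristic function of the zero set
      have hb : (fun x => if a x = 0 then (1 : ℝ) else 0) ∈ T2 X := by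
        refine ⟨_, isCozero_inter hu ha, hV, ?_⟩
        refine (continuousOn_const (c := (0 : ℝ))).congr ?_
        intro x hx
        have : a x ≠ 0 := hx.1
        simp [this]
      refine ⟨⟨_, hb⟩, ?_, ?_⟩
      · intro h
        have := congrFun (congrArg Subtype.val h) x₀
        change (if a x₀ = 0 then (1 : ℝ) else 0) = 0 at this
        simp [hx₀] at this
      · apply Subtype.ext
        funext x
        change a x * (if a x = 0 then (1 : ℝ) else 0) = 0
        by_cases h : a x = 0 <;> simp [h]
    · rw [dense_iff_inter_open] at hV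
      push Not at hV
      obtain ⟨W, hWo, hWne, hW⟩ := hV
      have hUo : IsOpen {x | u x ≠ 0} := isOpen_ne_fun hu continuous_const
      obtain ⟨x, hxW, hxU⟩ := hUd.inter_open_nonempty W hWo hWne
      obtain ⟨g, hg, hgx, hgK⟩ := CompletelyRegularSpace.completely_regular x
        ((W ∩ {x | u x ≠ 0})ᶜ) (hWo.inter hUo).isClosed_compl (fun h => h ⟨hxW, hxU⟩)
      have hb : (fun y => 1 - (g y : ℝ)) ∈ T2 X :=
        ⟨univ, ⟨fun _ => 1, continuous_const, by simp⟩, dense_univ,
          (continuous_const.sub (continuous_subtype_val.comp hg)).continuousOn⟩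
      refine ⟨⟨_, hb⟩, ?_, ?_⟩
      · intro h
        have := congrFun (congrArg Subtype.val h) x
        change 1 - (g x : ℝ) = 0 at this
        rw [hgx] at this
        simp at this
      · apply Subtype.ext
        funext y
        change a y * (1 - (g y : ℝ)) = 0
        by_cases hy : y ∈ W ∩ {x | u x ≠ 0}
        · have : a y = 0 := by
            by_contra hne
            have : y ∈ W ∩ {x | a x ≠ 0 ∧ u x ≠ 0} := ⟨hy.1, hne, hy.2⟩
            rw [hW] at this
            exact this
          rw [this, zero_mul]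
        · have h1 : g y = 1 := hgK hy
          rw [h1]
          simp

end Pool.Agent.Results.MP_3eafcc_gt.CompletelyRegularCase
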