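import Mathlib
import Pool.Agent.MP_3eafcc_gt.Tree

set_option autoImplicit false

open Set Filter Topology

namespace Pool.Agent.Results.MP_3eafcc_gt.RegularExample

open Pool.Agent.MP_3eafcc_gt

/-- `U` is a cozero set of `X`: the set of points at which some continuous real function on `X`
does not vanish. -/
def IsCozero {X : Type*} [TopologicalSpace X] (U : Set X) : Prop :=
  ∃ g : X → ℝ, Continuous g ∧ U = {x | g x ≠ 0}

/-- The ring `T''(X)`: all functions `f : X → ℝ` (pointwise operations) for which there is a dense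
cozero set `U` of `X` with `f` continuous on `U`. -/
def T2 (X : Type*) [TopologicalSpace X] : Subring (X → ℝ) where
  carrier := {f | ∃ U : Set X, IsCozero U ∧ Dense U ∧ ContinuousOn f U}
  mul_mem' := by
    rintro f g ⟨U, ⟨u, hu, rfl⟩, hUd, hf⟩ ⟨V, ⟨v, hv, rfl⟩, hVd, hg⟩
    refine ⟨{x | u x ≠ 0} ∩ {x | v x ≠ 0}, ⟨fun x => u x * v x, hu.mul hv, ?_⟩, ?_, ?_⟩
    · ext x; simp
    · exact hUd.inter_of_isOpen_left hVd (isOpen_ne_fun hu continuous_const)
    · exact (hf.mono inter_subset_left).mul (hg.mono inter_subset_right)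
  one_mem' := ⟨univ, ⟨fun _ => 1, continuous_const, by simp⟩, dense_univ,
    continuous_const.continuousOn⟩
  add_mem' := by
    rintro f g ⟨U, ⟨u, hu, rfl⟩, hUd, hf⟩ ⟨V, ⟨v, hv, rfl⟩, hVd, hg⟩
    refine ⟨{x | u x ≠ 0} ∩ {x | v x ≠ 0}, ⟨fun x => u x * v x, hu.mul hv, ?_⟩, ?_, ?_⟩
    · ext x; simp
    · exact hUd.inter_of_isOpen_left hVd (isOpen_ne_fun hu continuous_const)
    · exact (hf.mono inter_subset_left).add (hg.mono inter_subset_right)
  zero_mem' := ⟨univ, ⟨fun _ => 1, continuous_const, by simp⟩, dense_univ,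
    continuous_const.continuousOn⟩
  neg_mem' := by
    rintro f ⟨U, hU, hUd, hf⟩
    exact ⟨U, hU, hUd, hf.neg⟩

/-- A commutative ring is almost regular if each of its elements is a unit or a zero divisor. -/
def AlmostRegular (R : Type*) [CommRing R] : Prop :=
  ∀ a : R, IsUnit a ∨ ∃ b : R, b ≠ 0 ∧ a * b = 0

/-- The space `Z` with a sequence of isolated points converging to its base point. -/
inductive Ex : Type
  | a : ℕ → Ex
  | z : Z → Ex

open Ex

instance : TopologicalSpace Ex where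
  IsOpen U := (z Z.base ∈ U → ∀ᶠ n in atTop, a n ∈ U) ∧ IsOpen (z ⁻¹' U)
  isOpen_univ := ⟨fun _ => Eventually.of_forall fun _ => mem_univ _, isOpen_univ⟩
  isOpen_inter := by
    rintro s t ⟨hs1, hs2⟩ ⟨ht1, ht2⟩
    refine ⟨fun h => ?_, hs2.inter ht2⟩
    filter_upwards [hs1 h.1, ht1 h.2] with n h1 h2 using ⟨h1, h2⟩
  isOpen_sUnion := by
    intro S hS
    refine ⟨fun h => ?_, ?_⟩
    · obtain ⟨t, htS, ht⟩ := h
      filter_upwards [(hS t htS).1 ht] with n hn using ⟨t, htS, hn⟩
    · rw [preimage_sUnion]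
      exact isOpen_biUnion fun A hA => (hS A hA).2

theorem isOpen_iff' (U : Set Ex) : IsOpen U ↔
    (z Z.base ∈ U → ∀ᶠ n in atTop, a n ∈ U) ∧ IsOpen (z ⁻¹' U) := Iff.rfl

theorem continuous_z : Continuous (z : Z → Ex) := continuous_def.2 fun _ hU => hU.2

instance : T1Space Ex := by
  refine ⟨fun x => ?_⟩
  rw [← isOpen_compl_iff, isOpen_iff']
  rcases x with n | m
  · refine ⟨fun _ => ?_, ?_⟩
    · filter_upwards [eventually_gt_atTop n] with k hk h
      have : k = n := Ex.a.inj h
      omega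
    · convert isOpen_univ using 1
      ext k
      simp
  · refine ⟨fun _ => Eventually.of_forall fun k h => Ex.noConfusion h, ?_⟩
    have : (z ⁻¹' ({z m} : Set Ex)ᶜ) = ({m} : Set Z)ᶜ := by
      ext k; simp
    rw [this]
    exact isOpen_compl_singleton

instance : RegularSpace Ex := by
  refine RegularSpace.of_exists_mem_nhds_isClosed_subset fun x S hS => ?_
  obtain ⟨O, hOS, hO, hxO⟩ := mem_nhds_iff.1 hS
  rcases x with n | m
  · refine ⟨{a n}, ?_, isClosed_singleton, singleton_subset_iff.2 (hOS hxO)⟩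
    refine IsOpen.mem_nhds ?_ rfl
    rw [isOpen_iff']
    refine ⟨fun h => absurd h (by simp), ?_⟩
    convert isOpen_empty using 1
    ext k; simp
  · obtain ⟨C, hC1, hC2, hC3⟩ := exists_mem_nhds_isClosed_subset
      (((isOpen_iff' O).1 hO).2.mem_nhds (show m ∈ z ⁻¹' O from hxO))
    obtain ⟨V, hVC, hV, hmV⟩ := mem_nhds_iff.1 hC1
    refine ⟨z '' C ∪ {y | Z.base ∈ C ∧ y ∈ O ∧ ∃ n, y = a n}, ?_, ?_, ?_⟩
    · refine mem_of_superset (IsOpen.mem_nhds (s := z '' V ∪ {y | Z.base ∈ V ∧ y ∈ O ∧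
        ∃ n, y = a n}) ?_ (Or.inl ⟨m, hmV, rfl⟩)) ?_
      · rw [isOpen_iff']
        refine ⟨fun h => ?_, ?_⟩
        · have hb : Z.base ∈ V := by
            rcases h with ⟨k, hk, hk2⟩ | ⟨h, _⟩
            · rwa [Ex.z.inj hk2] at hk
            · exact h
          have : ∀ᶠ n in atTop, a n ∈ O := ((isOpen_iff' O).1 hO).1 (hC3 (hVC hb))
          filter_upwards [this] with n hn
          exact Or.inr ⟨hb, hn, n, rfl⟩
        · have : z ⁻¹' (z '' V ∪ {y | Z.base ∈ V ∧ y ∈ O ∧ ∃ n, y = a n}) = V := by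
            ext k; simp
          rw [this]
          exact hV
      · rintro y (⟨k, hk, rfl⟩ | ⟨h1, h2, h3⟩)
        · exact Or.inl ⟨k, hVC hk, rfl⟩
        · exact Or.inr ⟨hVC h1, h2, h3⟩
    · rw [← isOpen_compl_iff, isOpen_iff']
      refine ⟨fun h => ?_, ?_⟩
      · have hb : Z.base ∉ C := fun hb => h (Or.inl ⟨_, hb, rfl⟩)
        refine Eventually.of_forall fun n hn => ?_
        rcases hn with ⟨k, _, hk⟩ | ⟨h', _⟩
        · exact Ex.noConfusion hk
        · exact hb h'
      · have : z ⁻¹' (z '' C ∪ {y | Z.base ∈ C ∧ y ∈ O ∧ ∃ n, y = a n})ᶜ = Cᶜ := by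
          ext k; simp
        rw [this]
        exact hC2.isOpen_compl
    · rintro y (⟨k, hk, rfl⟩ | ⟨_, h2, _⟩)
      · exact hOS (hC3 hk)
      · exact hOS h2

/-- A function continuous on an open set that contains every point of `Z` is constant on `Z`. -/
theorem const_of_continuousOn {g : Ex → ℝ} {U : Set Ex}
    (hUr : ∀ m, z m ∈ U) (hg : ContinuousOn g U) (m : Z) : g (z m) = g (z Z.base) := by
  have h : Continuous fun m : Z => g (z m) := hg.comp_continuous continuous_z hUr
  exact Z.const_of_continuous h m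

/-- The function which vanishes on `Z` and equals `1 / (n + 1)` at `a n`. -/
noncomputable def fEx : Ex → ℝ
  | a n => 1 / ((n : ℝ) + 1)
  | z _ => 0

theorem continuous_fEx : Continuous fEx := by
  refine continuous_def.2 fun s hs => (isOpen_iff' _).2 ⟨fun h => ?_, ?_⟩
  · have h0 : (0 : ℝ) ∈ s := h
    exact tendsto_one_div_add_atTop_nhds_zero_nat.eventually (hs.mem_nhds h0)
  · by_cases h0 : (0 : ℝ) ∈ s
    · convert isOpen_univ using 1
      ext k
      exact ⟨fun _ => trivial, fun _ => h0⟩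
    · convert isOpen_empty using 1
      ext k
      exact ⟨fun h => h0 h, fun h => h.elim⟩

/-- There is a regular T1 space `X` for which the ring `T''(X)` is not almost regular. -/
theorem result : ∃ (X : Type) (_ : TopologicalSpace X),
    T1Space X ∧ RegularSpace X ∧ ¬ AlmostRegular (T2 X) := by
  refine ⟨Ex, inferInstance, inferInstance, inferInstance, fun H => ?_⟩
  have hmem : fEx ∈ T2 Ex :=
    ⟨univ, ⟨fun _ => 1, continuous_const, by simp⟩, dense_univ, continuous_fEx.continuousOn⟩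
  rcases H ⟨fEx, hmem⟩ with h | ⟨⟨b, U, ⟨u, hu, rfl⟩, hUd, hb⟩, hb0, hab⟩
  · obtain ⟨b, hb⟩ := h.exists_right_inv
    have := congrFun (congrArg Subtype.val hb) (z Z.base)
    change (0 : ℝ) * b.1 (z Z.base) = 1 at this
    simp at this
  · have hinl : ∀ n : ℕ, b (a n) = 0 := by
      intro n
      have := congrFun (congrArg Subtype.val hab) (a n)
      change 1 / ((n : ℝ) + 1) * b (a n) = 0 at this
      rcases mul_eq_zero.1 this with h | h
      · exfalso
        have : (0 : ℝ) < 1 / ((n : ℝ) + 1) := by positivity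
        linarith
      · exact h
    have hUo : IsOpen {x : Ex | u x ≠ 0} := isOpen_ne_fun hu continuous_const
    have hW : IsOpen {x : Ex | ∃ m : Z, m ≠ Z.base ∧ x = z m} := by
      refine (isOpen_iff' _).2 ⟨fun h => ?_, ?_⟩
      · obtain ⟨m, hm, hm'⟩ := h
        exact absurd (Ex.z.inj hm').symm hm
      · have : (z ⁻¹' {x : Ex | ∃ m : Z, m ≠ Z.base ∧ x = z m}) = ({Z.base} : Set Z)ᶜ := by
          ext k; simp
        rw [this]
        exact isOpen_compl_singleton
    obtain ⟨x, ⟨m, _, rfl⟩, hx⟩ := hUd.inter_open_nonempty _ hW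
      ⟨z (Z.word []), _, Z.not_subsingleton, rfl⟩
    have hUr : ∀ k, z k ∈ {x : Ex | u x ≠ 0} := by
      intro k h0
      apply hx
      rw [const_of_continuousOn (g := u) (fun _ => mem_univ _) hu.continuousOn m,
        ← const_of_continuousOn (g := u) (fun _ => mem_univ _) hu.continuousOn k]
      exact h0
    have hb00 : b (z Z.base) = 0 := by
      by_contra hne
      have h1 := (isOpen_iff' _).1
        (hb.isOpen_inter_preimage hUo (isOpen_compl_singleton (x := (0 : ℝ))))
      obtain ⟨n, hn⟩ := (h1.1 ⟨hUr _, hne⟩).exists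
      exact hn.2 (hinl n)
    apply hb0
    ext x
    rcases x with n | k
    · exact hinl n
    · change b (z k) = 0
      rw [const_of_continuousOn hUr hb k, hb00]

end Pool.Agent.Results.MP_3eafcc_gt.RegularExample
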